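import Pool.Agent.H.MP_321233_an.Ker

set_option autoImplicit false

namespace Pool.Agent.H.MP_4b0b35_an

open Filter Topology Metric Set Pool.Agent.H.MP_321233_an

noncomputable def mb (a z : ℂ) : ℂ := (a - z) / (1 - starRingEnd ℂ a * z)

variable {a z : ℂ}

lemma den_ge (_ha : ‖a‖ < 1) (hz : ‖z‖ < 1) : 1 - ‖a‖ ≤ ‖1 - starRingEnd ℂ a * z‖ := by
  have := norm_sub_norm_le (1 : ℂ) (starRingEnd ℂ a * z)
  rw [norm_one, norm_mul, RCLike.norm_conj] at this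
  nlinarith [norm_nonneg a]

lemma den_le (ha : ‖a‖ < 1) (hz : ‖z‖ < 1) : ‖1 - starRingEnd ℂ a * z‖ ≤ 2 := by
  have := norm_sub_le (1 : ℂ) (starRingEnd ℂ a * z)
  rw [norm_one, norm_mul, RCLike.norm_conj] at this
  nlinarith [norm_nonneg a, norm_nonneg z]

lemma den_ne (ha : ‖a‖ < 1) (hz : ‖z‖ < 1) : 1 - starRingEnd ℂ a * z ≠ 0 :=
  norm_pos_iff.1 ((sub_pos.2 ha).trans_le (den_ge ha hz))

lemma ident (ha : ‖a‖ < 1) (hz : ‖z‖ < 1) : (1 - ‖mb a z‖ ^ 2) * ‖1 - starRingEnd ℂ a * z‖ ^ 2 =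
    (1 - ‖a‖ ^ 2) * (1 - ‖z‖ ^ 2) := by
  have h := norm_ne_zero_iff.2 (den_ne ha hz)
  rw [mb, norm_div, div_pow, sub_mul, div_mul_cancel₀ _ (pow_ne_zero 2 h), one_mul]
  simp only [Complex.sq_norm, Complex.normSq_apply, Complex.sub_re, Complex.sub_im, Complex.one_re,
    Complex.one_im, Complex.mul_re, Complex.mul_im, Complex.conj_re, Complex.conj_im]
  ring

lemma sq1 (hz : ‖z‖ < 1) : 0 < 1 - ‖z‖ ^ 2 := by nlinarith [norm_nonneg z]

lemma mb_lt (ha : ‖a‖ < 1) (hz : ‖z‖ < 1) : ‖mb a z‖ < 1 := by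
  have h := ident ha hz
  have h1 := mul_pos (sq1 ha) (sq1 hz)
  rw [← h] at h1
  have := pos_of_mul_pos_left h1 (sq_nonneg _)
  nlinarith [norm_nonneg (mb a z)]

lemma mb_mb (ha : ‖a‖ < 1) (hz : ‖z‖ < 1) : mb a (mb a z) = z := by
  have h1 := den_ne ha hz
  have h2 := den_ne ha (mb_lt ha hz)
  have h3 : mb a z * (1 - starRingEnd ℂ a * z) = a - z := div_mul_cancel₀ _ h1
  rw [mb, div_eq_iff h2]
  refine mul_right_cancel₀ h1 ?_
  linear_combination (z * starRingEnd ℂ a - 1) * h3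

lemma mb_diff (ha : ‖a‖ < 1) : DifferentiableOn ℂ (mb a) (ball 0 1) := fun z hz =>
  (((differentiableAt_const a).sub differentiableAt_id).div ((differentiableAt_const 1).sub
    (differentiableAt_id.const_mul _)) (den_ne ha (by simpa using hz))).differentiableWithinAt

lemma mb_maps (ha : ‖a‖ < 1) : MapsTo (mb a) (ball 0 1) (ball 0 1) := fun z hz => by
  simpa using mb_lt ha (by simpa using hz)

variable {φ : ℂ → ℂ}

lemma g_all (hd : DifferentiableOn ℂ φ (ball 0 1)) (hm : ∀ z, ‖z‖ < 1 → ‖φ z‖ < 1)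
    (ha : ‖a‖ < 1) : DifferentiableOn ℂ (mb (φ a) ∘ φ ∘ mb a) (ball 0 1) ∧
      MapsTo (mb (φ a) ∘ φ ∘ mb a) (ball 0 1) (ball 0 1) ∧ (mb (φ a) ∘ φ ∘ mb a) 0 = 0 := by
  have h1 : MapsTo φ (ball 0 1) (ball 0 1) := fun z hz => by simpa using hm z (by simpa using hz)
  exact ⟨(mb_diff (hm a ha)).comp (hd.comp (mb_diff ha) (mb_maps ha)) (h1.comp (mb_maps ha)),
    (mb_maps (hm a ha)).comp (h1.comp (mb_maps ha)), by simp [mb]⟩

lemma pick (hd : DifferentiableOn ℂ φ (ball 0 1)) (hm : ∀ z, ‖z‖ < 1 → ‖φ z‖ < 1)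
    (ha : ‖a‖ < 1) (hz : ‖z‖ < 1) : ‖mb (φ a) (φ z)‖ ≤ ‖mb a z‖ := by
  obtain ⟨h1, h2, h3⟩ := g_all hd hm ha
  have := Complex.norm_le_norm_of_mapsTo_ball h1 (h2.mono_right ball_subset_closedBall) h3
    (mb_lt ha hz)
  rwa [Function.comp_apply, Function.comp_apply, mb_mb ha hz] at this

lemma pick_eq (hd : DifferentiableOn ℂ φ (ball 0 1)) (hm : ∀ z, ‖z‖ < 1 → ‖φ z‖ < 1)
    (ha : ‖a‖ < 1) {b : ℂ} (hb : ‖b‖ < 1) (hab : a ≠ b) (h : ‖mb (φ a) (φ b)‖ = ‖mb a b‖)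
    (hz : ‖z‖ < 1) : ‖mb (φ a) (φ z)‖ = ‖mb a z‖ := by
  obtain ⟨h1, h2, h3⟩ := g_all hd hm ha
  have h0 : mb a b ≠ 0 := div_ne_zero (sub_ne_zero.2 hab) (den_ne ha hb)
  obtain ⟨C, hC, h4⟩ := Complex.affine_of_mapsTo_ball_of_exists_norm_dslope_eq_div' (R₂ := 1) h1
    (by rw [h3]; exact h2.mono_right ball_subset_closedBall) ⟨mb a b, by simpa using mb_lt ha hb, by
      rw [dslope_of_ne _ h0, slope_def_field, h3, sub_zero, sub_zero, norm_div,
        Function.comp_apply, Function.comp_apply, mb_mb ha hb, h,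
        div_self (norm_ne_zero_iff.2 h0), div_one]⟩
  have := h4 (show mb a z ∈ ball 0 1 by simpa using mb_lt ha hz)
  rw [h3, Function.comp_apply, Function.comp_apply, mb_mb ha hz] at this
  rw [this]
  simp [hC]

lemma dw (hd : DifferentiableOn ℂ φ (ball 0 1)) (hm : ∀ z, ‖z‖ < 1 → ‖φ z‖ < 1)
    (hf : ∀ z, ‖z‖ < 1 → φ z ≠ z) (hz : ‖z‖ < 1) :
    (∀ r < 1, ∀ᶠ n in atTop, r < ‖φ^[n] z‖) ∨
      ∃ C : ℝ, 0 < C ∧ ∀ w, ‖w‖ < 1 → 1 - ‖φ w‖ ^ 2 ≤ C * (1 - ‖w‖ ^ 2) := by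
  refine or_iff_not_imp_left.2 fun hc => ?_
  push Not at hc
  obtain ⟨r, hr, hc⟩ := hc
  have z1 : ∀ n, ‖φ^[n] z‖ < 1 := fun n => by
    induction n with
    | zero => exact hz
    | succ n ih => rw [Function.iterate_succ_apply']; exact hm _ ih
  obtain ⟨a, ha, s, hs, hsa⟩ := (isCompact_closedBall (0 : ℂ) r).tendsto_subseq'
    (x := fun n => φ^[n] z) (hc.mono fun n hn => by simpa using hn)
  have ha1 : ‖a‖ < 1 := lt_of_le_of_lt (by simpa using ha) hr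
  have ct : ∀ {w : ℂ}, ‖w‖ < 1 → ContinuousAt φ w := fun hw =>
    (hd.differentiableAt (isOpen_ball.mem_nhds (by simpa using hw))).continuousAt
  set d : ℕ → ℝ := fun n => ‖mb (φ^[n] z) (φ (φ^[n] z))‖ with hdd
  have anti : Antitone d := antitone_nat_of_succ_le fun n => by
    simp only [hdd, Function.iterate_succ_apply']
    exact pick hd hm (z1 n) (hm _ (z1 n))
  have lim := tendsto_atTop_ciInf anti ⟨0, by rintro _ ⟨n, rfl⟩; exact norm_nonneg _⟩
  have cd : ∀ {w : ℂ}, ‖w‖ < 1 → ContinuousAt (fun u => ‖mb u (φ u)‖) w := fun hw =>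
    ((continuousAt_id.sub (ct hw)).div (continuousAt_const.sub
      (Complex.continuous_conj.continuousAt.mul (ct hw))) (den_ne hw (hm _ hw))).norm
  have l1 := tendsto_nhds_unique ((cd ha1).tendsto.comp hsa) (lim.comp hs.tendsto_atTop)
  have l2 := tendsto_nhds_unique ((cd (hm a ha1)).tendsto.comp ((ct ha1).tendsto.comp hsa))
    ((lim.comp ((tendsto_add_atTop_nat 1).comp hs.tendsto_atTop)).congr fun n => by
      simp only [hdd, Function.comp_apply, Function.iterate_succ_apply'])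
  have p1 := sq1 ha1
  have p2 := sq1 (hm a ha1)
  have p3 := sub_pos.2 ha1
  refine ⟨4 / ((1 - ‖φ a‖ ^ 2) * (1 - ‖a‖) ^ 2), by positivity, fun w hw => ?_⟩
  have e1 := ident ha1 hw
  have e2 := ident (hm a ha1) (hm w hw)
  rw [pick_eq hd hm ha1 (hm a ha1) (hf a ha1).symm (l2.trans l1.symm) hw] at e2
  have q1 := pow_le_pow_left₀ p3.le (den_ge ha1 hw) 2
  have q2 := pow_le_pow_left₀ (norm_nonneg _) (den_le (hm a ha1) (hm w hw)) 2
  have q3 := sq1 (mb_lt ha1 hw)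
  have q4 := sq1 hw
  rw [div_mul_eq_mul_div, le_div_iff₀ (by positivity)]
  have q5 : (1 - ‖mb a w‖ ^ 2) * (1 - ‖a‖) ^ 2 ≤ 1 - ‖w‖ ^ 2 := by
    nlinarith [mul_le_mul_of_nonneg_left q1 q3.le, sq_nonneg ‖a‖]
  have q6 : (1 - ‖φ a‖ ^ 2) * (1 - ‖φ w‖ ^ 2) ≤ 4 * (1 - ‖mb a w‖ ^ 2) := by
    nlinarith [mul_le_mul_of_nonneg_left q2 q3.le]
  nlinarith [mul_le_mul_of_nonneg_right q6 (sq_nonneg (1 - ‖a‖))]

lemma ev_eq (hz : ‖z‖ < 1) (f : L2) : HasSum (fun n => f n * z ^ n) (inner ℂ (kk z) f) :=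
  (lp.hasSum_inner (𝕜 := ℂ) (kk z) f).congr_fun fun n => by
    rw [kk, ser_apply (by simpa using hz)]
    simp

lemma kk_sq (hz : ‖z‖ < 1) : ‖kk z‖ ^ 2 * (1 - ‖z‖ ^ 2) = 1 := by
  have h1 := ev_eq hz (kk z)
  have h2 := Complex.hasSum_ofReal.2 (hasSum_geometric_of_lt_one (sq_nonneg ‖z‖)
    (sub_pos.1 (sq1 hz)))
  have h3 := h1.unique (h2.congr_fun fun n => by
    rw [kk, ser_apply (by simpa using hz), ← mul_pow, Complex.conj_mul']
    push_cast
    rfl)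
  rw [inner_self_eq_norm_sq_to_K] at h3
  have h4 : ‖kk z‖ ^ 2 = (1 - ‖z‖ ^ 2)⁻¹ :=
    Complex.ofReal_injective ((Complex.ofReal_pow _ _).trans h3)
  rw [h4, inv_mul_cancel₀ (sq1 hz).ne']

lemma kk_pos (hz : ‖z‖ < 1) : 0 < ‖kk z‖ := norm_pos_iff.2 fun h => by
  simpa [h] using kk_sq hz

lemma weak (g : L2) {ε : ℝ} (hε : 0 < ε) :
    ∃ r < 1, ∀ w, r < ‖w‖ → ‖w‖ < 1 → ‖inner ℂ (kk w) g‖ ≤ ε * ‖kk w‖ := by
  obtain ⟨s, hs⟩ := ((lp.hasSum_single (p := 2) (by norm_num) g).eventually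
    (ball_mem_nhds g (half_pos hε))).exists
  set M := ∑ n ∈ s, ‖g n‖ with hM
  have hM0 : 0 ≤ M := by positivity
  refine ⟨1 - (ε / 2) ^ 2 / (2 * (M ^ 2 + 1)), sub_lt_self _ (by positivity), fun w h1 h2 => ?_⟩
  have a1 : ‖inner ℂ (kk w) (∑ n ∈ s, lp.single 2 n (g n) : L2)‖ ≤ M := by
    rw [inner_sum]
    refine norm_sum_le_of_le _ fun n _ => ?_
    rw [lp.inner_single_right, kk, ser_apply (by simpa using h2)]
    simpa using mul_le_of_le_one_right (norm_nonneg (g n)) (pow_le_one₀ (norm_nonneg w) h2.le)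
  have a2 := norm_inner_le_norm (𝕜 := ℂ) (kk w) (g - ∑ n ∈ s, lp.single 2 n (g n))
  replace hs : ‖g - ∑ n ∈ s, lp.single 2 n (g n)‖ < ε / 2 := by
    rw [← dist_eq_norm, dist_comm]
    exact hs
  have a3 : M ≤ ε / 2 * ‖kk w‖ := by
    refine le_of_sq_le_sq ?_ (by positivity)
    have b1 := kk_sq h2
    rw [sub_lt_comm, lt_div_iff₀ (by positivity)] at h1
    have b2 : (1 - ‖w‖ ^ 2) * M ^ 2 ≤ (ε / 2) ^ 2 := by
      nlinarith [norm_nonneg w, sq_nonneg M, mul_nonneg (sq_nonneg (1 - ‖w‖)) (sq_nonneg M)]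
    nlinarith [mul_le_mul_of_nonneg_left b2 (sq_nonneg ‖kk w‖)]
  have a4 := norm_add_le (inner ℂ (kk w) (g - ∑ n ∈ s, lp.single 2 n (g n)))
    (inner ℂ (kk w) (∑ n ∈ s, lp.single 2 n (g n) : L2))
  rw [← inner_add_right, sub_add_cancel] at a4
  nlinarith [mul_le_mul_of_nonneg_left hs.le (norm_nonneg (kk w))]

lemma cpt {T : L2 →L[ℂ] L2} (hT : IsCompactOperator T) {ε : ℝ} (hε : 0 < ε) :
    ∃ r < 1, ∀ w, r < ‖w‖ → ‖w‖ < 1 → ∀ f : L2, ‖f‖ ≤ 1 →
      ‖inner ℂ (kk w) (T f)‖ ≤ ε * ‖kk w‖ := by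
  obtain ⟨K, hK, hK'⟩ := hT.image_closedBall_subset_compact 1
  obtain ⟨t, -, ht, ht'⟩ := finite_cover_balls_of_compact hK (half_pos hε)
  choose r hr hr' using fun g => weak g (half_pos hε)
  obtain ⟨R, hR, hR'⟩ : ∃ R < 1, ∀ g ∈ t, r g ≤ R := by
    rcases t.eq_empty_or_nonempty with rfl | hne
    · exact ⟨0, one_pos, by simp⟩
    · obtain ⟨g, -, hg⟩ := exists_max_image t r ht hne
      exact ⟨_, hr g, hg⟩
  refine ⟨R, hR, fun w h1 h2 f hf => ?_⟩
  obtain ⟨g, hg, hg'⟩ := mem_iUnion₂.1 (ht' (hK' ⟨f, by simpa using hf, rfl⟩))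
  have a1 := hr' g w ((hR' g hg).trans_lt h1) h2
  have a2 := norm_inner_le_norm (𝕜 := ℂ) (kk w) (T f - g)
  have a3 := norm_add_le (inner ℂ (kk w) (T f - g)) (inner ℂ (kk w) g)
  rw [← inner_add_right, sub_add_cancel] at a3
  rw [mem_ball, dist_eq_norm] at hg'
  nlinarith [mul_le_mul_of_nonneg_left (show ‖T f - g‖ ≤ ε / 2 from hg'.le) (norm_nonneg (kk w))]

theorem main {ψ : ℂ → ℂ} (hψ : DifferentiableOn ℂ ψ (ball 0 1))
    (hd : DifferentiableOn ℂ φ (ball 0 1)) (hm : ∀ z, ‖z‖ < 1 → ‖φ z‖ < 1)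
    (hf : ∀ z, ‖z‖ < 1 → φ z ≠ z) {T : L2 →L[ℂ] L2} (hT : IsCompactOperator T)
    (h : ∀ (f : L2) z, ‖z‖ < 1 → inner ℂ (kk z) (T f) = ψ z * inner ℂ (kk (φ z)) f) :
    spectrum ℂ T = {0} := by
  have key : ∀ ε : ℝ, 0 < ε → ∃ r < 1, ∀ w, r < ‖w‖ → ‖w‖ < 1 →
      ‖ψ w‖ * ‖kk (φ w)‖ ≤ ε * ‖kk w‖ := fun ε hε => by
    obtain ⟨r, hr, hr'⟩ := cpt hT hε
    refine ⟨r, hr, fun w h1 h2 => ?_⟩
    have p := kk_pos (hm w h2)
    have := hr' w h1 h2 (((‖kk (φ w)‖⁻¹ : ℝ) : ℂ) • kk (φ w)) (by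
      rw [norm_smul, Complex.norm_real, norm_inv, norm_norm, inv_mul_cancel₀ p.ne'])
    rwa [h _ w h2, inner_smul_right, norm_mul, norm_mul, inner_self_eq_norm_sq_to_K,
      Complex.norm_real, norm_inv, norm_norm, norm_pow, RCLike.norm_ofReal, abs_norm, sq,
      inv_mul_cancel_left₀ p.ne'] at this
  refine eq_singleton_iff_unique_mem.2 ⟨?_, fun μ hμ => ?_⟩
  · rw [spectrum.zero_mem_iff]
    rintro ⟨u, rfl⟩
    have h1 := hT.clm_comp (u⁻¹ : (L2 →L[ℂ] L2)ˣ).val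
    have h2 : IsCompactOperator (id : L2 → L2) := by
      refine (congrArg IsCompactOperator (funext fun x => ?_)).mp h1
      exact congrArg (fun S : L2 →L[ℂ] L2 => S x) u.inv_mul
    have h3 := FiniteDimensional.of_isCompactOperator_id (𝕜 := ℂ) h2
    have h4 : Orthonormal ℂ ee := orthonormal_iff_ite.2 fun i j => by
      rw [ee, lp.inner_single_left, ee, lp.single_apply, Pi.single_apply]
      split_ifs <;> simp
    exact Module.Finite.not_linearIndependent_of_infinite ee h4.linearIndependent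
  by_contra h0
  obtain ⟨f, hf1, hf0⟩ := ((hT.hasEigenvalue_iff_mem_spectrum h0).2 hμ).exists_hasEigenvector
  have e0 : T f = μ • f := Module.End.mem_eigenspace_iff.1 hf1
  have e1 : ∀ z, ‖z‖ < 1 → μ * inner ℂ (kk z) f = ψ z * inner ℂ (kk (φ z)) f := fun z hz => by
    rw [← h f z hz, e0, inner_smul_right]
  have hμ0 := norm_pos_iff.2 h0
  have e2 : ∀ z, ‖z‖ < 1 → inner ℂ (kk z) f = 0 := fun z hz => by
    rcases dw hd hm hf hz with h1 | ⟨C, hC, h1⟩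
    · obtain ⟨r, hr, hr'⟩ := key _ (half_pos hμ0)
      obtain ⟨N, hN⟩ := eventually_atTop.1 (h1 r hr)
      have z1 : ∀ n, ‖φ^[n] z‖ < 1 := fun n => by
        induction n with
        | zero => exact hz
        | succ n ih => rw [Function.iterate_succ_apply']; exact hm _ ih
      set u : ℕ → ℝ := fun n => ‖inner ℂ (kk (φ^[n] z)) f‖ / ‖kk (φ^[n] z)‖ with hu
      have u1 : ∀ n, u n ≤ ‖f‖ := fun n =>
        (div_le_iff₀' (kk_pos (z1 n))).2 (norm_inner_le_norm _ _)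
      have u2 : ∀ n, N ≤ n → 2 * u n ≤ u (n + 1) := fun n hn => by
        have b1 := congrArg norm (e1 _ (z1 n))
        have b2 := hr' _ (hN n hn) (z1 n)
        have p1 := kk_pos (z1 n)
        have p2 := kk_pos (hm _ (z1 n))
        simp only [hu, Function.iterate_succ_apply']
        rw [norm_mul, norm_mul] at b1
        rw [← mul_div_assoc, div_le_div_iff₀ p1 p2]
        refine le_of_mul_le_mul_left ?_ hμ0
        nlinarith [mul_le_mul_of_nonneg_left b2 (norm_nonneg (inner ℂ (kk (φ (φ^[n] z))) f))]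
      have u3 : ∀ k, 2 ^ k * u N ≤ u (N + k) := fun k => by
        induction k with
        | zero => simp
        | succ k ih => rw [pow_succ, ← add_assoc]; linarith [u2 (N + k) (Nat.le_add_right _ _)]
      have u4 : inner ℂ (kk (φ^[N] z)) f = 0 := by
        by_contra hc
        have p : 0 < u N := div_pos (norm_pos_iff.2 hc) (kk_pos (z1 N))
        obtain ⟨k, hk⟩ := pow_unbounded_of_one_lt (‖f‖ / u N) (one_lt_two (α := ℝ))
        rw [div_lt_iff₀ p] at hk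
        linarith [u3 k, u1 (N + k)]
      clear hN u2 u3
      induction N with
      | zero => exact u4
      | succ N ih =>
        refine ih ((mul_eq_zero.1 ?_).resolve_left h0)
        rw [e1 _ (z1 N), ← Function.iterate_succ_apply' φ, u4, mul_zero]
    · have : ψ z = 0 := by
        refine norm_le_zero_iff.1 (le_of_forall_pos_le_add fun ε hε => ?_)
        obtain ⟨r, hr, hr'⟩ := key (ε / √C) (by positivity)
        obtain ⟨s, hs1, hs2⟩ := exists_between (max_lt hr hz)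
        have hs0 : 0 < s := ((norm_nonneg z).trans (le_max_right _ _)).trans_lt hs1
        rw [zero_add]
        refine Complex.norm_le_of_forall_mem_frontier_norm_le (U := ball 0 s) isBounded_ball
          (hψ.mono (closure_ball_subset_closedBall.trans (closedBall_subset_ball hs2))).diffContOnCl
          (fun w hw => ?_) (subset_closure (by simpa using (le_max_right _ _).trans_lt hs1))
        rw [frontier_ball _ hs0.ne', mem_sphere_zero_iff_norm] at hw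
        have w1 : ‖w‖ < 1 := hw ▸ hs2
        have b1 := hr' w (hw ▸ (le_max_left _ _).trans_lt hs1) w1
        have b2 : ‖kk w‖ ≤ √C * ‖kk (φ w)‖ := by
          refine le_of_sq_le_sq ?_ (by positivity)
          rw [mul_pow, Real.sq_sqrt hC.le]
          have c1 := kk_sq w1
          have c2 := kk_sq (hm w w1)
          have c3 := mul_le_mul_of_nonneg_left (h1 w w1)
            (mul_nonneg (sq_nonneg ‖kk w‖) (sq_nonneg ‖kk (φ w)‖))
          calc ‖kk w‖ ^ 2 = ‖kk w‖ ^ 2 * (‖kk (φ w)‖ ^ 2 * (1 - ‖φ w‖ ^ 2)) := by rw [c2, mul_one]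
            _ ≤ C * ‖kk (φ w)‖ ^ 2 * (‖kk w‖ ^ 2 * (1 - ‖w‖ ^ 2)) := by linarith
            _ = _ := by rw [c1, mul_one]
        have b3 := b1.trans (mul_le_mul_of_nonneg_left b2 (by positivity))
        rw [← mul_assoc, div_mul_cancel₀ _ (Real.sqrt_pos.2 hC).ne'] at b3
        exact le_of_mul_le_mul_right b3 (kk_pos (hm w w1))
      refine (mul_eq_zero.1 ?_).resolve_left h0
      rw [e1 z hz, this, zero_mul]
  have e3 := dense_kk (ball 0 1) isOpen_ball ⟨0, by simp⟩ fun l hl => by simpa using hl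
  rw [Submodule.topologicalClosure_eq_top_iff, Submodule.eq_bot_iff] at e3
  refine hf0 (e3 f ((Submodule.mem_orthogonal _ _).2 fun v hv => ?_))
  induction hv using Submodule.span_induction with
  | mem v hv =>
    obtain ⟨l, hl, rfl⟩ := hv
    exact e2 l (by simpa using hl)
  | zero => simp
  | add x y _ _ hx hy => rw [inner_add_left, hx, hy, add_zero]
  | smul c x _ hx => rw [inner_smul_left, hx, mul_zero]

end Pool.Agent.H.MP_4b0b35_an
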